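import Pool.Agent.SSC.Diag

/-!
MP_608c2c_lc, Q1 (partial): a minimal non-sigma-scattered linear order `L` with a weakly dense
subset `D` smaller than `L` has cardinality the successor of `#D`, where `#D` has countable
cofinality and `2 ^ #D` is larger than its successor, and `L` embeds into each of its subsets of
size `#L`.
-/

set_option autoImplicit false

open Cardinal

namespace Pool.Agent.Results.MP_608c2c_lc.DensityOfMinimal

universe u

/-- `A` is covered by countably many sets containing no copy of the rationals. -/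
def SigmaScattered {L : Type u} [LinearOrder L] (A : Set L) : Prop :=
  ∃ S : ℕ → Set L, (∀ x ∈ A, ∃ n, x ∈ S n) ∧
    ∀ n, ¬ ∃ f : ℚ → L, StrictMono f ∧ ∀ q, f q ∈ S n

/-- `L` is a minimal non-sigma-scattered linear order. -/
def MinimalNonSigmaScattered (L : Type u) [LinearOrder L] : Prop :=
  ¬ SigmaScattered (Set.univ : Set L) ∧
    ∀ A : Set L, ¬ SigmaScattered A → ∃ g : L → L, StrictMono g ∧ ∀ x, g x ∈ A

/-- Whenever `x < y` some point `d` of `D` satisfies `x ≤ d ≤ y`. -/
def WeaklyDense {L : Type u} [LinearOrder L] (D : Set L) : Prop :=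
  ∀ x y : L, x < y → ∃ d ∈ D, x ≤ d ∧ d ≤ y

/-- (1) If `L` is not sigma-scattered and all its suborders of smaller cardinality are
sigma-scattered, and `D` is a weakly dense set with `#D < #L`, then `#L` is the successor of
`#D` and `#D` has countable cofinality. (2) If moreover `L` is minimal, then
`#L < 2 ^ #D` and `L` embeds into each of its subsets of size `#L`. -/
theorem result :
    (∀ (L : Type u) [LinearOrder L], ¬ SigmaScattered (Set.univ : Set L) →
      (∀ A : Set L, #A < #L → SigmaScattered A) → ∀ D : Set L, WeaklyDense D → #D < #L →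
        #L = Order.succ #D ∧ (#D).ord.cof = ℵ₀) ∧
    (∀ (L : Type u) [LinearOrder L], MinimalNonSigmaScattered L → ∀ D : Set L,
      WeaklyDense D → #D < #L → #L = Order.succ #D ∧ (#D).ord.cof = ℵ₀ ∧ #L < 2 ^ #D ∧
        ∀ A : Set L, #A = #L → ∃ g : L → L, StrictMono g ∧ ∀ x, g x ∈ A) := by
  refine ⟨fun L _ h1 h2 D hD hlt => ⟨SSC.WD.mk_eq_succ hD h1 h2 hlt,
    SSC.WD.cof_eq hD h1 h2 hlt⟩, fun L _ hL D hD hlt => ?_⟩
  have h2 : ∀ A : Set L, #A < #L → SigmaScattered A := by
    intro A hA
    by_contra hno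
    obtain ⟨g, hg, hgA⟩ := hL.2 A hno
    have h3 : #L ≤ #A :=
      mk_le_of_injective (f := fun x => (⟨g x, hgA x⟩ : A)) (fun x y hxy => hg.injective
        (congrArg Subtype.val hxy))
    exact absurd hA (not_lt.2 h3)
  have h3 := SSC.WD.mk_eq_succ hD hL.1 h2 hlt
  have h4 : ∀ A : Set L, #A = #L → ∃ g : L → L, StrictMono g ∧ ∀ x, g x ∈ A := by
    intro A hA
    refine hL.2 A (fun hss => ?_)
    have h5 := SSC.WD.mk_le hD hL.1 (A := A) hss
    rw [hA] at h5
    exact absurd hlt (not_lt.2 h5)
  exact ⟨h3, SSC.WD.cof_eq hD hL.1 h2 hlt,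
    SSC.WD.succ_lt hD (SSC.WD.infinite hD hL.1) h3 h4, h4⟩

end Pool.Agent.Results.MP_608c2c_lc.DensityOfMinimal
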