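import Pool.Agent.SSC.Final

/-!
MP_608c2c_lc, Q1 (partial): the cardinality of a minimal non-sigma-scattered linear order `L` is
an uncountable regular cardinal; `L` is not a union of fewer than `#L` sigma-scattered sets
(a singular compactness theorem for sigma-scattered orders), and no countably complete filter
containing the complements of all sets of size less than `#L` decides a certain family of `#L`
sets (so `#L` is not weakly compact and carries no uniform countably complete ultrafilter).
-/

set_option autoImplicit false

open Cardinal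

namespace Pool.Agent.Results.MP_608c2c_lc.RegularCardinality

universe u

/-- `A` is covered by countably many sets containing no copy of the rationals. -/
def SigmaScattered {L : Type u} [LinearOrder L] (A : Set L) : Prop :=
  ∃ S : ℕ → Set L, (∀ x ∈ A, ∃ n, x ∈ S n) ∧
    ∀ n, ¬ ∃ f : ℚ → L, StrictMono f ∧ ∀ q, f q ∈ S n

/-- `L` is a minimal non-sigma-scattered linear order. -/
def MinimalNonSigmaScattered (L : Type u) [LinearOrder L] : Prop :=
  ¬ SigmaScattered (Set.univ : Set L) ∧
    ∀ A : Set L, ¬ SigmaScattered A → ∃ g : L → L, StrictMono g ∧ ∀ x, g x ∈ A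

/-- The conclusions about the cardinality of `L`. -/
def Conclusions (L : Type u) [LinearOrder L] : Prop :=
  (#L).IsRegular ∧ ℵ₀ < #L ∧
  (∀ 𝒜 : Set (Set L), #𝒜 < #L → (∀ A ∈ 𝒜, SigmaScattered A) → ∃ x, ∀ A ∈ 𝒜, x ∉ A) ∧
  (∃ 𝒲 : Set (Set L), #𝒲 ≤ #L ∧ ∀ U : Filter L, U.NeBot → CountableInterFilter U →
    (∀ B : Set L, #B < #L → Bᶜ ∈ U) → ∃ W ∈ 𝒲, W ∉ U ∧ Wᶜ ∉ U)

/-- For every linear order `L` that is not sigma-scattered and such that all its suborders of
smaller cardinality are sigma-scattered, in particular for every minimal non-sigma-scattered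
linear order: `#L` is regular and uncountable, `L` is not covered by fewer than `#L`
sigma-scattered sets, and there is a family of at most `#L` sets that is not decided by any
countably complete proper filter containing the complements of the sets of size less than
`#L`. -/
theorem result :
    (∀ (L : Type u) [LinearOrder L], ¬ SigmaScattered (Set.univ : Set L) →
      (∀ A : Set L, #A < #L → SigmaScattered A) → Conclusions L) ∧
    (∀ (L : Type u) [LinearOrder L], MinimalNonSigmaScattered L → Conclusions L) := by
  have key : ∀ (L : Type u) [LinearOrder L], ¬ SigmaScattered (Set.univ : Set L) →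
      (∀ A : Set L, #A < #L → SigmaScattered A) → Conclusions L := by
    intro L _ h1 h2
    exact ⟨SSC.isRegular_mk h1 h2, SSC.aleph0_lt_mk h1, SSC.no_cover h1 h2, SSC.no_filter h1 h2⟩
  refine ⟨key, fun L _ hL => key L hL.1 (fun A hA => ?_)⟩
  by_contra hno
  obtain ⟨g, hg, hgA⟩ := hL.2 A hno
  have h3 : #L ≤ #A :=
    mk_le_of_injective (f := fun x => (⟨g x, hgA x⟩ : A)) (fun x y hxy => hg.injective
      (congrArg Subtype.val hxy))
  exact absurd hA (not_lt.2 h3)

end Pool.Agent.Results.MP_608c2c_lc.RegularCardinality
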